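import Pool.Agent.D0H86.Flux.Conn

/-!
`Ham_c(M, Ω)` is not `C⁰`-closed in `Symp_{c,0}(M, Ω)` for a suitable connected non-compact
symplectic 4-manifold `M`, an open subset of `ℝ⁴`.
-/

set_option autoImplicit false
set_option maxSynthPendingDepth 3

open Set Filter Topology

namespace Pool.Agent.Results.MP_e3d95b_gt.HamNotClosed

open Pool.Agent.D0H86.Flux

/-- There are a connected open set `M ⊆ ℝ⁴`, a symplectic form `Ω` on `M`, an element `ψ` of
`Symp_{c,0}(M, Ω)` that is not in `Ham_c(M, Ω)`, and a sequence `θ n` in `Ham_c(M, Ω)` with supports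
in one compact subset of `M` that converges to `ψ` uniformly. -/
theorem result : ∃ (M : Set (ℝ × ℝ × ℝ × ℝ))
    (Ω : ℝ × ℝ × ℝ × ℝ → (ℝ × ℝ × ℝ × ℝ) →L[ℝ] (ℝ × ℝ × ℝ × ℝ) →L[ℝ] ℝ),
    IsConnected M ∧ IsSymplecticForm M Ω ∧
    ∃ ψ ∈ SympC0 M Ω, ψ ∉ HamC M Ω ∧
      ∃ (K : Set (ℝ × ℝ × ℝ × ℝ)) (θ : ℕ → (ℝ × ℝ × ℝ × ℝ) → (ℝ × ℝ × ℝ × ℝ)),
        IsCompact K ∧ K ⊆ M ∧ (∀ n, θ n ∈ HamC M Ω) ∧ (∀ n, ∀ x ∉ K, θ n x = x) ∧
        TendstoUniformly θ ψ atTop := by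
  obtain ⟨χ, Ψ, L, h, hc, hn, hL, hL2, hU⟩ := exists_psi
  have hcount := psi_countable h hn hL hL2 hU
  have hne : {c : ℝ | Ψ (-c) ∈ HamC MM Om} ≠ univ := by
    intro e
    rw [e] at hcount
    exact not_countable_univ hcount
  obtain ⟨c0, hc0⟩ := (Set.ne_univ_iff_exists_notMem _).1 hne
  have hiso := isIsotopy_of h hc hn
  obtain ⟨K, hK, hKM, hKf⟩ := hiso.supp
  obtain ⟨u, hu1, hu2⟩ := mem_closure_iff_seq_limit.1 (dense_periods (-c0))
  refine ⟨MM, Om, isConnected_MM, isSymplectic, Ψ (-c0), ?_, hc0, K, fun n => Ψ (u n), hK, hKM,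
    ?_, ?_, ?_⟩
  · have hs := h.scale (-c0)
    refine ⟨fun t => Ψ (-c0 * t), isIsotopy_of hs (Cpt.scale hc (-c0)) (Near.scale hn (-c0)), ?_, ?_⟩
    · intro t x hx u v
      exact presOm hs t x hx.1 u v
    · simp
  · intro n
    obtain ⟨a, b, e⟩ := hu1 n
    simp only
    rw [e]
    exact psi_mem h hc hn a b
  · intro n x hx
    exact hKf _ x hx
  · have : CompactSpace K := isCompact_iff_compactSpace.1 hK
    have hcont : Continuous (fun q : ℝ × K => Ψ q.1 q.2) :=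
      h.sφ.continuous.comp (continuous_fst.prodMk (continuous_subtype_val.comp continuous_snd))
    have ht := Continuous.tendstoUniformly (fun (t : ℝ) (x : K) => Ψ t x) hcont (-c0)
    rw [Metric.tendstoUniformly_iff] at ht ⊢
    intro ε hε
    filter_upwards [hu2.eventually (ht ε hε)] with n hn' x
    by_cases hx : x ∈ K
    · exact hn' ⟨x, hx⟩
    · rw [hKf _ x hx, hKf _ x hx, dist_self]
      exact hε

end Pool.Agent.Results.MP_e3d95b_gt.HamNotClosed
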